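import Pool.Agent.Helper60.FF.DefsB

set_option autoImplicit false

namespace Pool.Agent.Helper60.FF

theorem st_FDV (h : ST_RFA) : ST_FDV := by
  intro p _ E₁ E π₁ π f₁ f h1 h2 hle
  obtain ⟨_, _, _, h4⟩ := h p
  constructor
  · rw [← h4 f₁ f h1.fpos h2.fpos]
    intro ξ hξ
    obtain ⟨z, hz, _, hz1, hz2⟩ := h1.tei ξ hξ
    have := h2.rs z (hle hz) hz1
    rw [hz2] at this
    exact this
  · have h0 : π₁ ≠ 0 := by
      intro h5
      have := h1.pos
      rw [h5, norm_zero] at this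
      exact lt_irrefl _ this
    obtain ⟨j, hj⟩ := h2.val π₁ (hle h1.mem) h0
    have hj0 : 0 < j := by
      by_contra h6
      push Not at h6
      have h7 : 1 ≤ ‖π‖ ^ j := one_le_zpow_of_nonpos₀ h2.pos h2.lt.le h6
      have := h1.lt
      rw [hj] at this
      linarith
    refine ⟨j.toNat, by omega, ?_⟩
    rw [hj, ← zpow_natCast, Int.toNat_of_nonneg hj0.le]

end Pool.Agent.Helper60.FF
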