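import Pool.Agent.Helper60.FF.StmtsC

set_option autoImplicit false

namespace Pool.Agent.Helper60.FF

open Polynomial

section

variable {p : ℕ} [hp : Fact p.Prime] {A : Subfield ℂ_[p]}

/-- all coefficients are in the subring `S` -/
def SplJ (S : Subring ℂ_[p]) (f : Polynomial A) : Prop := ∀ j, ((f.coeff j : A) : ℂ_[p]) ∈ S

theorem spl_mul {S : Subring ℂ_[p]} {f g : Polynomial A} (hf : SplJ S f) (hg : SplJ S g) :
    SplJ S (f * g) := by
  intro j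
  rw [coeff_mul, show (((∑ x ∈ Finset.HasAntidiagonal.antidiagonal j, f.coeff x.1 * g.coeff x.2 : A)) : ℂ_[p]) =
    ∑ x ∈ Finset.HasAntidiagonal.antidiagonal j, ((f.coeff x.1 : A) : ℂ_[p]) * ((g.coeff x.2 : A) : ℂ_[p]) by
      push_cast; rfl]
  exact S.sum_mem fun x _ => S.mul_mem (hf _) (hg _)

theorem spl_add {S : Subring ℂ_[p]} {f g : Polynomial A} (hf : SplJ S f) (hg : SplJ S g) :
    SplJ S (f + g) := by
  intro j
  rw [coeff_add]
  exact S.add_mem (hf j) (hg j)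

theorem spl_C {S : Subring ℂ_[p]} {x : A} (hx : (x : ℂ_[p]) ∈ S) : SplJ S (C x) := by
  intro j
  rw [coeff_C]
  split_ifs
  · exact hx
  · exact S.zero_mem

theorem spl_X {S : Subring ℂ_[p]} : SplJ S (X : Polynomial A) := by
  intro j
  rw [coeff_X]
  split_ifs
  · exact S.one_mem
  · exact S.zero_mem

theorem spl_pow {S : Subring ℂ_[p]} {f : Polynomial A} (hf : SplJ S f) (k : ℕ) :
    SplJ S (f ^ k) := by
  induction k with
  | zero =>
    rw [pow_zero, ← C_1]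
    exact spl_C S.one_mem
  | succ k ih =>
    rw [pow_succ]
    exact spl_mul ih hf

theorem spl_sum {S : Subring ℂ_[p]} {ι : Type} (s : Finset ι) (f : ι → Polynomial A)
    (hf : ∀ i ∈ s, SplJ S (f i)) : SplJ S (∑ i ∈ s, f i) := by
  intro j
  rw [finsetSum_coeff]
  rw [show (((∑ i ∈ s, (f i).coeff j : A)) : ℂ_[p]) = ∑ i ∈ s, (((f i).coeff j : A) : ℂ_[p]) by
    push_cast; rfl]
  exact S.sum_mem fun i hi => hf i hi j

theorem spl_comp {S : Subring ℂ_[p]} {f g : Polynomial A} (hf : SplJ S f) (hg : SplJ S g) :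
    SplJ S (f.comp g) := by
  rw [comp_eq_sum_left, Polynomial.sum_def]
  exact spl_sum _ _ fun i _ => spl_mul (spl_C (hf i)) (spl_pow hg i)

/-- the normalised polynomial in the coordinate of the disc -/
noncomputable def splN (a ϖ : A) (f : Polynomial A) : Polynomial A :=
  C (f.eval a)⁻¹ * f.comp (C a + C ϖ * X)

theorem splN_eval (a ϖ : A) (f : Polynomial A) (h0 : f.eval a ≠ 0) (y : ℂ_[p]) :
    f.eval₂ A.subtype ((a : ℂ_[p]) + (ϖ : ℂ_[p]) * y) =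
      ((f.eval a : A) : ℂ_[p]) * (splN a ϖ f).eval₂ A.subtype y := by
  unfold splN
  rw [eval₂_mul, eval₂_comp, eval₂_C, eval₂_add, eval₂_mul, eval₂_C, eval₂_C, eval₂_X, ← mul_assoc]
  have h1 : ((f.eval a : A) : ℂ_[p]) ≠ 0 := by
    intro h
    exact h0 (Subtype.ext h)
  rw [show A.subtype (f.eval a)⁻¹ = ((f.eval a : A) : ℂ_[p])⁻¹ from rfl, mul_inv_cancel₀ h1, one_mul]
  rfl

theorem splN_coeff_zero (a ϖ : A) (f : Polynomial A) (h0 : f.eval a ≠ 0) :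
    (splN a ϖ f).coeff 0 = 1 := by
  unfold splN
  rw [coeff_C_mul, coeff_zero_eq_eval_zero, eval_comp]
  simp [h0]

theorem splN_E {E : IntermediateField ℚ_[p] ℂ_[p]} {a ϖ : A} (ha : (a : ℂ_[p]) ∈ E)
    (hϖ : (ϖ : ℂ_[p]) ∈ E) {f : Polynomial A} (hf : ∀ j, ((f.coeff j : A) : ℂ_[p]) ∈ E) :
    SplJ E.toSubfield.toSubring (splN a ϖ f) := by
  have hf' : SplJ E.toSubfield.toSubring f := hf
  unfold splN
  refine spl_mul (spl_C ?_) (spl_comp hf' (spl_add (spl_C ha) (spl_mul (spl_C hϖ) spl_X)))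
  have h1 : ((f.eval a : A) : ℂ_[p]) ∈ E.toSubfield.toSubring := by
    rw [eval_eq_sum, Polynomial.sum_def]
    rw [show (((∑ n ∈ f.support, f.coeff n * a ^ n : A)) : ℂ_[p]) =
      ∑ n ∈ f.support, ((f.coeff n : A) : ℂ_[p]) * ((a : A) : ℂ_[p]) ^ n by push_cast; rfl]
    exact Subring.sum_mem _ fun n _ => Subring.mul_mem _ (hf' n) (Subring.pow_mem _ ha n)
  exact E.inv_mem h1

theorem spl_multiset (a ϖ : A) (hϖ : ϖ ≠ 0) (s : Multiset A)
    (hs : ∀ v ∈ s, ‖(ϖ : ℂ_[p])‖ ≤ ‖(v : ℂ_[p]) - a‖) :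
    SplJ (OO p).toSubring (splN a ϖ (s.map (fun v => X - C v)).prod) := by
  induction s using Multiset.induction_on with
  | empty =>
    unfold splN
    simp only [Multiset.map_zero, Multiset.prod_zero, eval_one, inv_one, one_comp, mul_one]
    exact spl_C (Subring.one_mem _)
  | cons v s ih =>
    have h1 := ih fun w hw => hs w (Multiset.mem_cons_of_mem hw)
    have h2 := hs v (Multiset.mem_cons_self v s)
    have h3 : splN a ϖ ((v ::ₘ s).map (fun v => X - C v)).prod =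
        (C (a - v)⁻¹ * (C a + C ϖ * X - C v)) * splN a ϖ (s.map (fun v => X - C v)).prod := by
      unfold splN
      rw [Multiset.map_cons, Multiset.prod_cons, eval_mul, mul_comp, mul_inv, C_mul]
      simp only [eval_sub, eval_X, eval_C, sub_comp, X_comp, C_comp]
      ring
    rw [h3]
    refine spl_mul ?_ h1
    have hne : a - v ≠ 0 := by
      intro h4
      have h5 : (v : ℂ_[p]) - a = 0 := by
        have := congrArg (fun x : A => (x : ℂ_[p])) h4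
        simp only [Subfield.coe_sub, Subfield.coe_zero] at this
        rw [← neg_sub, this, neg_zero]
      rw [h5, norm_zero] at h2
      have h6 : (ϖ : ℂ_[p]) = 0 := norm_le_zero_iff.1 h2
      exact hϖ (Subtype.ext h6)
    have h4 : C (a - v)⁻¹ * (C a + C ϖ * X - C v) = C 1 + C ((a - v)⁻¹ * ϖ) * X := by
      have h5 : C (a - v)⁻¹ * (C a + C ϖ * X - C v) =
          C ((a - v)⁻¹ * (a - v)) + C ((a - v)⁻¹ * ϖ) * X := by
        rw [C_mul, C_mul, C_sub]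
        ring
      rw [h5, inv_mul_cancel₀ hne]
    rw [h4]
    refine spl_add (spl_C (Subring.one_mem _)) (spl_mul (spl_C ?_) spl_X)
    change ‖(((a - v)⁻¹ * ϖ : A) : ℂ_[p])‖ ≤ 1
    have h7 : (((a - v)⁻¹ * ϖ : A) : ℂ_[p]) = ((a : ℂ_[p]) - v)⁻¹ * (ϖ : ℂ_[p]) := by
      push_cast
      rfl
    rw [h7, norm_mul, norm_inv, norm_sub_rev]
    have h8 : 0 < ‖(v : ℂ_[p]) - a‖ := by
      refine lt_of_lt_of_le (norm_pos_iff.2 ?_) h2
      intro h9
      exact hϖ (Subtype.ext h9)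
    rw [inv_mul_le_iff₀ h8, mul_one]
    exact h2

theorem spl_int [IsAlgClosed A] (a ϖ : A) (hϖ : ϖ ≠ 0) (f : Polynomial A) (hf0 : f ≠ 0)
    (hs : ∀ v : A, f.eval v = 0 → ‖(ϖ : ℂ_[p])‖ ≤ ‖(v : ℂ_[p]) - a‖) :
    SplJ (OO p).toSubring (splN a ϖ f) := by
  have h1 := spl_multiset a ϖ hϖ f.roots (fun v hv => hs v ((mem_roots hf0).1 hv))
  have h2 : splN a ϖ f = splN a ϖ (f.roots.map (fun v => X - C v)).prod := by
    have h3 := (IsAlgClosed.splits f).eq_prod_roots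
    have h4 : f.leadingCoeff ≠ 0 := leadingCoeff_ne_zero.2 hf0
    conv_lhs => rw [h3]
    unfold splN
    rw [eval_mul, mul_comp, mul_inv, C_mul, eval_C, C_comp]
    have h5 : C f.leadingCoeff⁻¹ * C f.leadingCoeff = (1 : Polynomial A) := by
      rw [← C_mul, inv_mul_cancel₀ h4, C_1]
    calc _ = (C f.leadingCoeff⁻¹ * C f.leadingCoeff) *
        (C (eval a (f.roots.map fun v => X - C v).prod)⁻¹ *
          (f.roots.map fun v => X - C v).prod.comp (C a + C ϖ * X)) := by ring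
      _ = _ := by rw [h5, one_mul]
  rw [h2]
  exact h1

/-- the quotient of two normalised integral polynomials as a power series -/
theorem spl_quot {S : Subring ℂ_[p]} (hS : ∀ x ∈ S, ‖x‖ ≤ 1) {P Q : Polynomial A}
    (hP : SplJ S P) (hQ : SplJ S Q) (hP0 : P.coeff 0 = 1) (hQ0 : Q.coeff 0 = 1) :
    ∃ g : ℕ → ℂ_[p], g 0 = 1 ∧ (∀ k, g k ∈ S) ∧ ∀ y : ℂ_[p], ‖y‖ < 1 →
      (∑' k, g k * y ^ k) * Q.eval₂ A.subtype y = P.eval₂ A.subtype y := by
  let Pr : PowerSeries S := PowerSeries.mk fun k => ⟨(P.coeff k : ℂ_[p]), hP k⟩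
  let Qr : PowerSeries S := PowerSeries.mk fun k => ⟨(Q.coeff k : ℂ_[p]), hQ k⟩
  have hQc : PowerSeries.constantCoeff Qr = ((1 : Sˣ) : S) := by
    rw [← PowerSeries.coeff_zero_eq_constantCoeff_apply, PowerSeries.coeff_mk]
    apply Subtype.ext
    change ((Q.coeff 0 : A) : ℂ_[p]) = 1
    rw [hQ0]
    rfl
  have hPc : PowerSeries.constantCoeff Pr = 1 := by
    rw [← PowerSeries.coeff_zero_eq_constantCoeff_apply, PowerSeries.coeff_mk]
    apply Subtype.ext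
    change ((P.coeff 0 : A) : ℂ_[p]) = 1
    rw [hP0]
    rfl
  let Gr : PowerSeries S := Pr * PowerSeries.invOfUnit Qr 1
  have hG : Gr * Qr = Pr := by
    change Pr * PowerSeries.invOfUnit Qr 1 * Qr = Pr
    rw [mul_assoc, mul_comm (PowerSeries.invOfUnit Qr 1), PowerSeries.mul_invOfUnit Qr 1 hQc, mul_one]
  refine ⟨fun k => ((PowerSeries.coeff k Gr : S) : ℂ_[p]), ?_, fun k => (PowerSeries.coeff k Gr).2, ?_⟩
  · have h1 : PowerSeries.constantCoeff Gr = 1 := by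
      have h2 := congrArg (PowerSeries.constantCoeff (R := S)) hG
      rw [map_mul, hQc, hPc] at h2
      simpa using h2
    rw [← PowerSeries.coeff_zero_eq_constantCoeff_apply] at h1
    change ((PowerSeries.coeff 0 Gr : S) : ℂ_[p]) = 1
    rw [h1]
    rfl
  · intro y hy
    have hb : ∀ f : ℕ → ℂ_[p], (∀ k, ‖f k‖ ≤ 1) → Summable fun k => ‖f k * y ^ k‖ := by
      intro f hf
      refine Summable.of_nonneg_of_le (fun k => norm_nonneg _) (fun k => ?_)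
        (summable_geometric_of_lt_one (norm_nonneg y) hy)
      rw [norm_mul, norm_pow]
      exact mul_le_of_le_one_left (pow_nonneg (norm_nonneg y) k) (hf k)
    have hpoly : ∀ f : Polynomial A, f.eval₂ A.subtype y = ∑' k, ((f.coeff k : A) : ℂ_[p]) * y ^ k := by
      intro f
      rw [eval₂_eq_sum, Polynomial.sum_def]
      rw [tsum_eq_sum (s := f.support)]
      · rfl
      · intro k hk
        rw [notMem_support_iff.1 hk]
        simp
    rw [hpoly Q, hpoly P]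
    rw [tsum_mul_tsum_eq_tsum_sum_antidiagonal_of_summable_norm
      (hb _ fun k => hS _ (PowerSeries.coeff k Gr).2) (hb _ fun k => hS _ (hQ k))]
    congr 1
    ext k
    have h3 := congrArg (fun F : PowerSeries S => ((PowerSeries.coeff k F : S) : ℂ_[p])) hG
    simp only [PowerSeries.coeff_mul] at h3
    have h4 : ((PowerSeries.coeff k Pr : S) : ℂ_[p]) = ((P.coeff k : A) : ℂ_[p]) := by
      rw [PowerSeries.coeff_mk]
    rw [h4] at h3
    rw [← h3]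
    push_cast
    rw [Finset.sum_mul]
    refine Finset.sum_congr rfl fun x hx => ?_
    have h5 : ((PowerSeries.coeff x.2 Qr : S) : ℂ_[p]) = ((Q.coeff x.2 : A) : ℂ_[p]) := by
      rw [PowerSeries.coeff_mk]
    rw [h5, ← Finset.HasAntidiagonal.mem_antidiagonal.1 hx, pow_add]
    ring

end

theorem st_SPL (h1 : ST_CNJ) (h2 : ST_FCT) (h3 : ST_ORD) (h4 : ST_EVH) : ST_SPL := by
  intro p _ A hA hAalg E hE a ϖ ha hϖE hϖ m h hm hh hOv hord
  obtain ⟨P, Q, hQ0, hPE, hQE, hPQ⟩ := hOv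
  have hinj : Function.Injective (algebraMap (Polynomial A) (RatFunc A)) :=
    RatFunc.algebraMap_injective A
  have hne : ∀ f : Polynomial A, f ≠ 0 → algebraMap (Polynomial A) (RatFunc A) f ≠ 0 := by
    intro f hf h5
    exact hf (hinj (by rw [h5, map_zero]))
  have hP0 : P ≠ 0 := by
    intro h5
    rw [h5, map_zero] at hPQ
    exact mul_ne_zero hh (hne Q hQ0) hPQ
  obtain ⟨P₁, P₂, hP, hP₁m, hP₁E, hP₂E, hP₁r, hP₂r⟩ :=
    h1 p A hA hAalg E hE a ‖(ϖ : ℂ_[p])‖ ha P hP0 hPE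
  obtain ⟨Q₁, Q₂, hQ, hQ₁m, hQ₁E, hQ₂E, hQ₁r, hQ₂r⟩ :=
    h1 p A hA hAalg E hE a ‖(ϖ : ℂ_[p])‖ ha Q hQ0 hQE
  have hP₁0 : P₁ ≠ 0 := hP₁m.ne_zero
  have hQ₁0 : Q₁ ≠ 0 := hQ₁m.ne_zero
  have hP₂0 : P₂ ≠ 0 := by
    intro h5
    rw [h5, mul_zero] at hP
    exact hP0 hP
  have hQ₂0 : Q₂ ≠ 0 := by
    intro h5
    rw [h5, mul_zero] at hQ
    exact hQ0 hQ
  obtain ⟨o1, o2, o3, o4, o5⟩ := h3 p A
  set aP₁ := algebraMap (Polynomial A) (RatFunc A) P₁ with haP₁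
  set aP₂ := algebraMap (Polynomial A) (RatFunc A) P₂ with haP₂
  set aQ₁ := algebraMap (Polynomial A) (RatFunc A) Q₁ with haQ₁
  set aQ₂ := algebraMap (Polynomial A) (RatFunc A) Q₂ with haQ₂
  have nP₁ : aP₁ ≠ 0 := hne _ hP₁0
  have nP₂ : aP₂ ≠ 0 := hne _ hP₂0
  have nQ₁ : aQ₁ ≠ 0 := hne _ hQ₁0
  have nQ₂ : aQ₂ ≠ 0 := hne _ hQ₂0
  have hmain : h * (aQ₁ * aQ₂) = aP₁ * aP₂ := by
    rw [haP₁, haP₂, haQ₁, haQ₂, ← map_mul, ← map_mul, ← hP, ← hQ]
    exact hPQ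
  -- the part in the disc
  have hn1 : aP₁ * aQ₁⁻¹ ≠ 0 := mul_ne_zero nP₁ (inv_ne_zero nQ₁)
  have hOv1 : Ov A E (aP₁ * aQ₁⁻¹) :=
    ⟨P₁, Q₁, hQ₁0, hP₁E, hQ₁E, by rw [mul_assoc, inv_mul_cancel₀ nQ₁, mul_one]⟩
  have hord1 : ∀ v : A, (m : ℤ) ∣ ordv A v (aP₁ * aQ₁⁻¹) := by
    intro v
    have e1 : ordv A v (aP₁ * aQ₁⁻¹) = P₁.rootMultiplicity v - Q₁.rootMultiplicity v := by
      rw [o1 v _ _ nP₁ (inv_ne_zero nQ₁), o2 v _ nQ₁, o5 v _ hP₁0, o5 v _ hQ₁0]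
      ring
    rcases lt_or_ge ‖(v : ℂ_[p]) - a‖ ‖(ϖ : ℂ_[p])‖ with hv | hv
    · have e2 := congrArg (ordv A v) hmain
      rw [o1 v _ _ hh (mul_ne_zero nQ₁ nQ₂), o1 v _ _ nQ₁ nQ₂, o1 v _ _ nP₁ nP₂, o5 v _ hP₁0,
        o5 v _ hQ₁0, o5 v _ hP₂0, o5 v _ hQ₂0] at e2
      have r1 : P₂.rootMultiplicity v = 0 := by
        apply rootMultiplicity_eq_zero
        intro h6
        exact absurd (hP₂r v h6) (not_le.2 hv)
      have r2 : Q₂.rootMultiplicity v = 0 := by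
        apply rootMultiplicity_eq_zero
        intro h6
        exact absurd (hQ₂r v h6) (not_le.2 hv)
      rw [r1, r2] at e2
      have e3 : ordv A v (aP₁ * aQ₁⁻¹) = ordv A v h := by
        rw [e1]
        push_cast at e2
        linarith
      rw [e3]
      exact hord v hv
    · have r1 : P₁.rootMultiplicity v = 0 := by
        apply rootMultiplicity_eq_zero
        intro h6
        exact absurd (hP₁r v h6) (not_lt.2 hv)
      have r2 : Q₁.rootMultiplicity v = 0 := by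
        apply rootMultiplicity_eq_zero
        intro h6
        exact absurd (hQ₁r v h6) (not_lt.2 hv)
      rw [e1, r1, r2]
      simp
  obtain ⟨b, z, hbE, hb0, hz0, hzE, hbz⟩ := h2 p A hA E m hm _ hn1 hOv1 hord1
  -- the part outside
  have hPa : P₂.eval a ≠ 0 := by
    intro h5
    have := hP₂r a h5
    rw [sub_self, norm_zero] at this
    exact hϖ (Subtype.ext (norm_le_zero_iff.1 this))
  have hQa : Q₂.eval a ≠ 0 := by
    intro h5
    have := hQ₂r a h5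
    rw [sub_self, norm_zero] at this
    exact hϖ (Subtype.ext (norm_le_zero_iff.1 this))
  have := hA
  let S : Subring ℂ_[p] := E.toSubfield.toSubring ⊓ (OO p).toSubring
  have jP : SplJ S (splN a ϖ P₂) := fun j =>
    ⟨splN_E ha hϖE hP₂E j, spl_int a ϖ hϖ P₂ hP₂0 hP₂r j⟩
  have jQ : SplJ S (splN a ϖ Q₂) := fun j =>
    ⟨splN_E ha hϖE hQ₂E j, spl_int a ϖ hϖ Q₂ hQ₂0 hQ₂r j⟩
  obtain ⟨g, hg0, hgS, hg⟩ := spl_quot (S := S) (fun x hx => hx.2) jP jQ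
    (splN_coeff_zero a ϖ P₂ hPa) (splN_coeff_zero a ϖ Q₂ hQa)
  have hcE : ∀ f : Polynomial A, (∀ j, ((f.coeff j : A) : ℂ_[p]) ∈ E) →
      ((f.eval a : A) : ℂ_[p]) ∈ E := by
    intro f hf
    rw [eval_eq_sum, Polynomial.sum_def]
    rw [show (((∑ n ∈ f.support, f.coeff n * a ^ n : A)) : ℂ_[p]) =
      ∑ n ∈ f.support, ((f.coeff n : A) : ℂ_[p]) * ((a : A) : ℂ_[p]) ^ n by push_cast; rfl]
    exact sum_mem fun n _ => mul_mem (hf n) (pow_mem ha n)
  have cne : ∀ x : A, x ≠ 0 → (x : ℂ_[p]) ≠ 0 := fun x hx h5 => hx (Subtype.ext h5)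
  refine ⟨(b : ℂ_[p]) * (((P₂.eval a : A) : ℂ_[p]) * (((Q₂.eval a : A) : ℂ_[p]))⁻¹), g, z,
    mul_mem hbE (mul_mem (hcE P₂ hP₂E) (inv_mem (hcE Q₂ hQ₂E))),
    mul_ne_zero (cne b hb0) (mul_ne_zero (cne _ hPa) (inv_ne_zero (cne _ hQa))), hg0,
    fun k => ⟨(hgS k).1, (hgS k).2⟩, hz0, hzE, ?_⟩
  intro τ hτ hτn
  obtain ⟨e, he, heX, heC, heP, _⟩ := h4 p A hA τ hτ
  rw [← he, ← he]
  have hϖ' : (ϖ : ℂ_[p]) ≠ 0 := cne ϖ hϖ
  set y : ℂ_[p] := (τ - a) / ϖ with hy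
  have hτy : τ = (a : ℂ_[p]) + (ϖ : ℂ_[p]) * y := by
    rw [hy]
    field_simp
    ring
  have hy1 : ‖y‖ < 1 := by
    rw [hy, norm_div, div_lt_one (norm_pos_iff.2 hϖ')]
    exact hτn
  have hgy := hg y hy1
  have m1 := congrArg e hmain
  rw [map_mul, map_mul, map_mul] at m1
  have m2 : e aP₂ = ((P₂.eval a : A) : ℂ_[p]) * (splN a ϖ P₂).eval₂ A.subtype y := by
    rw [haP₂, heP, hτy]
    exact splN_eval a ϖ P₂ hPa y
  have m3 : e aQ₂ = ((Q₂.eval a : A) : ℂ_[p]) * (splN a ϖ Q₂).eval₂ A.subtype y := by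
    rw [haQ₂, heP, hτy]
    exact splN_eval a ϖ Q₂ hQa y
  have m4 : e aP₁ = (b : ℂ_[p]) * e z ^ m * e aQ₁ := by
    have h5 : aP₁ = RatFunc.C b * z ^ m * aQ₁ := by
      rw [← hbz, mul_assoc, inv_mul_cancel₀ nQ₁, mul_one]
    rw [h5, map_mul, map_mul, map_pow, heC]
  have n1 : e aQ₁ ≠ 0 := (map_ne_zero e).2 nQ₁
  have n2 : e aQ₂ ≠ 0 := (map_ne_zero e).2 nQ₂
  have n3 : (splN a ϖ Q₂).eval₂ A.subtype y ≠ 0 := by
    intro h5
    rw [m3, h5, mul_zero] at n2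
    exact n2 rfl
  have n4 : (((Q₂.eval a : A) : ℂ_[p])) ≠ 0 := cne _ hQa
  rw [m2, m3, m4, ← hgy] at m1
  have key : e h * (e aQ₁ * ((Q₂.eval a : A) : ℂ_[p]) * (splN a ϖ Q₂).eval₂ A.subtype y) =
      ((b : ℂ_[p]) * (((P₂.eval a : A) : ℂ_[p]) * (((Q₂.eval a : A) : ℂ_[p]))⁻¹) *
        (∑' k, g k * y ^ k) * e z ^ m) *
      (e aQ₁ * ((Q₂.eval a : A) : ℂ_[p]) * (splN a ϖ Q₂).eval₂ A.subtype y) := by
    calc _ = e h * (e aQ₁ * (((Q₂.eval a : A) : ℂ_[p]) * (splN a ϖ Q₂).eval₂ A.subtype y)) := by ring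
      _ = _ := m1
      _ = ((b : ℂ_[p]) * (((P₂.eval a : A) : ℂ_[p]) *
          ((((Q₂.eval a : A) : ℂ_[p]))⁻¹ * ((Q₂.eval a : A) : ℂ_[p]))) *
        (∑' k, g k * y ^ k) * e z ^ m) * (e aQ₁ * (splN a ϖ Q₂).eval₂ A.subtype y) := by
          rw [inv_mul_cancel₀ n4]
          ring
      _ = _ := by ring
  exact mul_right_cancel₀ (mul_ne_zero (mul_ne_zero n1 n4) n3) key

end Pool.Agent.Helper60.FF
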