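import Pool.Agent.Helper60.FF.DefsB

set_option autoImplicit false

namespace Pool.Agent.Helper60.FF

theorem st_TRA : ST_TRA := by
  intro p _ A hA E _ x hx δ hδ
  have hinj : Function.Injective (fun c : ℚ_[p] => x + algebraMap ℚ_[p] ℂ_[p] c) := by
    intro c d h
    exact (algebraMap ℚ_[p] ℂ_[p]).injective (add_left_cancel h)
  have hS : {c : ℚ_[p] | x + algebraMap ℚ_[p] ℂ_[p] c ∈ A}.Countable :=
    hA.preimage_of_injOn hinj.injOn
  have hd := hS.dense_compl ℚ_[p]
  obtain ⟨c, hc, hc'⟩ := hd.exists_dist_lt 0 hδ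
  refine ⟨x + algebraMap ℚ_[p] ℂ_[p] c, add_mem hx (E.algebraMap_mem c), hc, ?_⟩
  rw [add_sub_cancel_left]
  have h2 := PadicComplex.norm_extends' p c
  rw [dist_zero_left] at hc'
  rw [← h2] at hc'
  exact hc'

end Pool.Agent.Helper60.FF
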